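import Pool.Agent.OPH.StmtsB

/-!
OPH, row SCA (all scales occur), by helper5.
-/

set_option autoImplicit false

namespace Pool.Agent.OPH.H5

open Finset Pool.Agent.OPG Pool.Agent.OPH

theorem sum_map_range (g : ℕ → ℝ) (N : ℕ) :
    ((List.range N).map g).sum = ∑ j ∈ range N, g j := by
  induction N with
  | zero => simp
  | succ N ih =>
    rw [List.range_succ, List.map_append, List.sum_append, ih, Finset.sum_range_succ]
    simp

/-- the list of ratios of a sign sequence. -/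
def mk (c : ℕ → ℤ) (N h y : ℕ) : List (ℕ × ℕ) :=
  (List.range N).map (fun j => if c j = 1 then (y + 2 * h * j, 1)
    else if c j = -1 then (1, y + 2 * h * j) else (1, 1))

theorem lsum_mk (c : ℕ → ℤ) (N h y : ℕ) (hc : ∀ j, |c j| ≤ 1) :
    lsum (mk c N h y) = PH c N h y := by
  unfold lsum mk PH
  rw [List.map_map, sum_map_range]
  refine Finset.sum_congr rfl fun j _ => ?_
  have h1 := abs_le.mp (hc j)
  have h2 : c j = -1 ∨ c j = 0 ∨ c j = 1 := by omega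
  rcases h2 with h | h | h
  · simp [Function.comp, h]
  · simp [Function.comp, h]
  · simp [Function.comp, h]

theorem mem_mk (c : ℕ → ℤ) (N h y B : ℕ) (hy : Odd y) (hB : y + 2 * h * N ≤ B) :
    ∀ x ∈ mk c N h y, Odd x.1 ∧ Odd x.2 ∧ x.1 ≤ B ∧ x.2 ≤ B := by
  intro x hx
  unfold mk at hx
  rw [List.mem_map] at hx
  obtain ⟨j, hj, rfl⟩ := hx
  rw [List.mem_range] at hj
  have hy1 : 1 ≤ y := hy.pos
  have hodd : Odd (y + 2 * h * j) := by
    obtain ⟨k, hk⟩ := hy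
    exact ⟨k + h * j, by rw [hk]; ring⟩
  have hle : y + 2 * h * j ≤ B :=
    le_trans (Nat.add_le_add_left (Nat.mul_le_mul_left _ hj.le) _) hB
  have h1 : (1 : ℕ) ≤ B := le_trans (le_trans hy1 (Nat.le_add_right _ _)) hle
  split_ifs
  · exact ⟨hodd, odd_one, hle, h1⟩
  · exact ⟨odd_one, hodd, h1, hle⟩
  · exact ⟨odd_one, odd_one, h1, h1⟩

theorem PH_neg (c : ℕ → ℤ) (N h : ℕ) (y : ℝ) : PH (fun j => -c j) N h y = -PH c N h y := by
  unfold PH
  rw [← Finset.sum_neg_distrib]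
  refine Finset.sum_congr rfl fun j _ => ?_
  push_cast
  ring

/-- a list with sum `|PH|`. -/
theorem exists_list (c : ℕ → ℤ) (N h y B : ℕ) (hc : ∀ j, |c j| ≤ 1) (hy : Odd y)
    (hB : y + 2 * h * N ≤ B) :
    ∃ L : List (ℕ × ℕ), L.length = N ∧
      (∀ x ∈ L, Odd x.1 ∧ Odd x.2 ∧ x.1 ≤ B ∧ x.2 ≤ B) ∧ lsum L = |PH c N h y| := by
  rcases le_total 0 (PH c N h y) with h0 | h0
  · refine ⟨mk c N h y, by simp [mk], mem_mk c N h y B hy hB, ?_⟩
    rw [lsum_mk c N h y hc, abs_of_nonneg h0]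
  · refine ⟨mk (fun j => -c j) N h y, by simp [mk], mem_mk _ N h y B hy hB, ?_⟩
    rw [lsum_mk (fun j => -c j) N h y (fun j => by rw [abs_neg]; exact hc j), PH_neg,
      abs_of_nonpos h0]

/-- the numerical bound for the error term of EXT. -/
theorem err_bound (l N n : ℕ) (hl : 1 ≤ l) (hN : N ≤ 432 * l ^ 3) (hn : n = 40 * l) :
    (N : ℝ) * (2 * n + 1) * (2 / 2 ^ n) ≤ 1 / 2 ^ l / 4 := by
  have hl2 : l ≤ 2 ^ l := Nat.lt_two_pow_self.le
  have h4 : l ^ 4 ≤ 2 ^ (4 * l) := by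
    calc l ^ 4 ≤ (2 ^ l) ^ 4 := Nat.pow_le_pow_left hl2 4
      _ = 2 ^ (4 * l) := by rw [← pow_mul, mul_comm]
  have h5 : N * (2 * n + 1) * 2 ≤ 2 ^ 17 * 2 ^ (4 * l) := by
    calc N * (2 * n + 1) * 2 ≤ (432 * l ^ 3) * (81 * l) * 2 := by
          gcongr
          omega
      _ = 69984 * l ^ 4 := by ring
      _ ≤ 2 ^ 17 * 2 ^ (4 * l) := Nat.mul_le_mul (by norm_num) h4
  have h6 : N * (2 * n + 1) * 2 * (4 * 2 ^ l) ≤ 2 ^ n := by
    calc N * (2 * n + 1) * 2 * (4 * 2 ^ l) ≤ (2 ^ 17 * 2 ^ (4 * l)) * (4 * 2 ^ l) :=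
          Nat.mul_le_mul_right _ h5
      _ = 2 ^ (19 + 5 * l) := by
          rw [show (4 : ℕ) = 2 ^ 2 by norm_num, ← pow_add, ← pow_add, ← pow_add]
          congr 1
          omega
      _ ≤ 2 ^ n := Nat.pow_le_pow_right (by norm_num) (by omega)
  have h7 : (N : ℝ) * (2 * n + 1) * 2 * (4 * 2 ^ l) ≤ 2 ^ n := by exact_mod_cast h6
  have hp : (0 : ℝ) < 2 ^ n := by positivity
  have hq : (0 : ℝ) < 4 * 2 ^ l := by positivity
  have e1 : (N : ℝ) * (2 * n + 1) * (2 / 2 ^ n) = (N : ℝ) * (2 * n + 1) * 2 / 2 ^ n := by ring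
  have e2 : (1 : ℝ) / 2 ^ l / 4 = 1 / (4 * 2 ^ l) := by
    field_simp
  rw [e1, e2, div_le_div_iff₀ hp hq, one_mul]
  exact h7

/-- row SCA -/
theorem sca (hPte : PteStmt) (hExt : ExtStmt) (hSta : StaStmt) (hEnd : EndStmt) : ScaStmt := by
  classical
  obtain ⟨C, hC16, hC⟩ : ∃ C : ℕ, 16 ≤ C ∧ 10 ^ 24 ≤ C := ⟨10 ^ 24, by norm_num, le_rfl⟩
  refine ⟨C, by omega, ?_⟩
  intro l hl t ht1 ht2
  obtain ⟨c, hc0, hc1, hcs⟩ := hPte (l + 1)
  obtain ⟨N, hN⟩ : ∃ N : ℕ, N = 16 * (l + 1 + 1) ^ 3 := ⟨_, rfl⟩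
  rw [← hN] at hcs
  obtain ⟨n, hn⟩ : ∃ n : ℕ, n = 40 * l := ⟨_, rfl⟩
  obtain ⟨r, hr⟩ : ∃ r : ℕ, r = 4 * n ^ 2 + 1 := ⟨_, rfl⟩
  obtain ⟨h, hh⟩ : ∃ h : ℕ, h = 100 * N * r := ⟨_, rfl⟩
  obtain ⟨Y, hY⟩ : ∃ Y : ℕ, Y = (4 * h * N) ^ 2 + 1 := ⟨_, rfl⟩
  -- numerical bounds
  have hNl : N ≤ 432 * l ^ 3 := by
    rw [hN]
    calc 16 * (l + 1 + 1) ^ 3 ≤ 16 * (3 * l) ^ 3 := by
          gcongr
          omega
      _ = 432 * l ^ 3 := by ring
  have hN1 : 1 ≤ N := by rw [hN]; exact Nat.succ_le_of_lt (by positivity)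
  have hn1 : 1 ≤ n := by omega
  have hr1 : 1 ≤ r := by omega
  have hh1 : 1 ≤ h := by rw [hh]; exact Nat.succ_le_of_lt (by positivity)
  have hl1 : 1 ≤ l ^ 2 := Nat.one_le_pow _ _ hl
  have hrl : r ≤ 6401 * l ^ 2 := by
    rw [hr, hn]
    calc 4 * (40 * l) ^ 2 + 1 ≤ 4 * (40 * l) ^ 2 + l ^ 2 := Nat.add_le_add_left hl1 _
      _ = 6401 * l ^ 2 := by ring
  have hhl : h ≤ 276523200 * l ^ 5 := by
    rw [hh]
    calc 100 * N * r ≤ 100 * (432 * l ^ 3) * (6401 * l ^ 2) := by gcongr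
      _ = 276523200 * l ^ 5 := by ring
  have h4l : 4 * h * N ≤ 477832089600 * l ^ 8 := by
    calc 4 * h * N ≤ 4 * (276523200 * l ^ 5) * (432 * l ^ 3) := by gcongr
      _ = 477832089600 * l ^ 8 := by ring
  have hp816 : l ^ 8 ≤ l ^ 16 := Nat.pow_le_pow_right hl (by norm_num)
  have hp216 : l ^ 2 ≤ l ^ 16 := Nat.pow_le_pow_right hl (by norm_num)
  have hp116 : 1 ≤ l ^ 16 := Nat.one_le_pow _ _ hl
  have hYl : Y ≤ 3 * 10 ^ 23 * l ^ 16 := by
    rw [hY]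
    calc (4 * h * N) ^ 2 + 1 ≤ (477832089600 * l ^ 8) ^ 2 + l ^ 16 := by
          gcongr
      _ = (477832089600 ^ 2 + 1) * l ^ 16 := by ring
      _ ≤ 3 * 10 ^ 23 * l ^ 16 := Nat.mul_le_mul_right _ (by norm_num)
  have hbig : Y + 2 * n ^ 2 + 2 * h * N ≤ 10 ^ 24 * l ^ 16 := by
    have e1 : 2 * n ^ 2 ≤ 3200 * l ^ 16 := by
      rw [hn]
      calc 2 * (40 * l) ^ 2 = 3200 * l ^ 2 := by ring
        _ ≤ 3200 * l ^ 16 := Nat.mul_le_mul_left _ hp216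
    have e2 : 2 * h * N ≤ 477832089600 * l ^ 16 := by
      calc 2 * h * N ≤ 4 * h * N := by gcongr; norm_num
        _ ≤ 477832089600 * l ^ 8 := h4l
        _ ≤ 477832089600 * l ^ 16 := Nat.mul_le_mul_left _ hp816
    calc Y + 2 * n ^ 2 + 2 * h * N
        ≤ 3 * 10 ^ 23 * l ^ 16 + 3200 * l ^ 16 + 477832089600 * l ^ 16 := by
          exact Nat.add_le_add (Nat.add_le_add hYl e1) e2
      _ = (3 * 10 ^ 23 + 3200 + 477832089600) * l ^ 16 := by ring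
      _ ≤ 10 ^ 24 * l ^ 16 := Nat.mul_le_mul_right _ (by norm_num)
  have hCl : 10 ^ 24 * l ^ 16 ≤ C * l ^ C :=
    Nat.mul_le_mul hC (Nat.pow_le_pow_right hl hC16)
  have ht0 : 0 < t := lt_of_lt_of_le (by positivity) ht1
  have herr := err_bound l N n hl hNl hn
  have herr' : (N : ℝ) * (2 * n + 1) * (2 / 2 ^ n) ≤ t / 4 := by
    refine le_trans herr ?_
    linarith
  -- large values
  have hlarge : ∀ y : ℕ, Y ≤ y → |PH c N h (y : ℝ)| < t := by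
    intro y hy
    have h1 : (4 * (h : ℝ) * N) ^ 2 ≤ (y : ℝ) := by
      have h2 : (4 * h * N) ^ 2 ≤ y := by omega
      exact_mod_cast h2
    have h2 := hEnd c N h (l + 1) y hN1 hh1 hc1 hcs h1
    refine lt_of_le_of_lt h2 (lt_of_lt_of_le ?_ ht1)
    apply one_div_lt_one_div_of_lt (by positivity)
    exact pow_lt_pow_right₀ (by norm_num) (by omega)
  -- the set
  obtain ⟨S, hS⟩ : ∃ S : Finset ℕ, S = (Finset.Icc r Y).filter
    (fun y : ℕ => Odd y ∧ t ≤ |PH c N h ((y : ℕ) : ℝ)|) := ⟨_, rfl⟩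
  have hrodd : Odd r := ⟨2 * n ^ 2, by rw [hr]; ring⟩
  have h3r : 3 * r ≤ Y := by
    have e0 : 100 * r ≤ h := by
      rw [hh]
      calc 100 * r = 100 * 1 * r := by ring
        _ ≤ 100 * N * r := by gcongr
    have e1 : h ≤ 4 * h * N := by
      calc h = 1 * h * 1 := by ring
        _ ≤ 4 * h * N := by gcongr; norm_num
    have e2 : 4 * h * N ≤ (4 * h * N) ^ 2 := by
      rw [sq]
      exact Nat.le_mul_of_pos_left _ (by omega)
    omega
  have hSne : S.Nonempty := by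
    have hst := hSta c N h (r : ℝ) hN1 hc0 hc1 (by exact_mod_cast hr1)
      (by rw [hh]; push_cast; exact le_rfl)
    rcases hst with h1 | h1
    · refine ⟨r, ?_⟩
      rw [hS, Finset.mem_filter, Finset.mem_Icc]
      exact ⟨⟨le_rfl, by omega⟩, hrodd, le_trans ht2 h1⟩
    · refine ⟨3 * r, ?_⟩
      rw [hS, Finset.mem_filter, Finset.mem_Icc]
      refine ⟨⟨by omega, h3r⟩, ?_, ?_⟩
      · exact (by decide : Odd 3).mul hrodd
      · push_cast
        exact le_trans ht2 h1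
  obtain ⟨y, hyS, hymax⟩ := S.exists_max_image id hSne
  rw [hS, Finset.mem_filter, Finset.mem_Icc] at hyS
  obtain ⟨⟨hyr, hyY⟩, hyodd, hyt⟩ := hyS
  have hafter : ∀ z : ℕ, Odd z → y < z → |PH c N h (z : ℝ)| < t := by
    intro z hz hyz
    by_contra hcon
    push Not at hcon
    rcases le_or_gt Y z with h1 | h1
    · exact absurd (hlarge z h1) (not_lt.mpr hcon)
    · have h2 : z ∈ S := by
        rw [hS, Finset.mem_filter, Finset.mem_Icc]
        exact ⟨⟨by omega, h1.le⟩, hz, hcon⟩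
      have h3 := hymax z h2
      simp only [id] at h3
      omega
  have hext := hExt c N h n (y : ℝ) hn1 hc1 (by
    have h1 : 4 * n ^ 2 ≤ y := by omega
    exact_mod_cast h1)
  have hnpos : (0 : ℝ) < n := by exact_mod_cast hn1
  obtain ⟨i, hi, hit⟩ : ∃ i, i < n ∧
      t / (4 * n) ≤ |PH c N h ((y : ℝ) + 2 * ((i : ℝ) + 1) ^ 2)| := by
    by_contra hcon
    push Not at hcon
    have h1 : ∑ i ∈ range n, |PH c N h ((y : ℝ) + 2 * ((i : ℝ) + 1) ^ 2)|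
        ≤ ∑ i ∈ range n, t / (4 * n) :=
      Finset.sum_le_sum fun i hi => (hcon i (Finset.mem_range.mp hi)).le
    rw [Finset.sum_const, Finset.card_range, nsmul_eq_mul] at h1
    have h2 : (n : ℝ) * (t / (4 * n)) = t / 4 := by field_simp
    rw [h2] at h1
    linarith
  obtain ⟨z, hz⟩ : ∃ z : ℕ, z = y + 2 * (i + 1) ^ 2 := ⟨_, rfl⟩
  have hzr : ((z : ℕ) : ℝ) = (y : ℝ) + 2 * ((i : ℝ) + 1) ^ 2 := by
    rw [hz]; push_cast; ring
  rw [← hzr] at hit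
  have hzodd : Odd z := by
    obtain ⟨k, hk⟩ := hyodd
    exact ⟨k + (i + 1) ^ 2, by rw [hz, hk]; ring⟩
  have hyz : y < z := by
    rw [hz]
    have : 0 < 2 * (i + 1) ^ 2 := by positivity
    omega
  have hzt := hafter z hzodd hyz
  have hzB : z + 2 * h * N ≤ C * l ^ C := by
    have h1 : (i + 1) ^ 2 ≤ n ^ 2 := Nat.pow_le_pow_left (by omega) 2
    have h2 : z ≤ Y + 2 * n ^ 2 := by omega
    calc z + 2 * h * N ≤ Y + 2 * n ^ 2 + 2 * h * N := Nat.add_le_add_right h2 _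
      _ ≤ 10 ^ 24 * l ^ 16 := hbig
      _ ≤ C * l ^ C := hCl
  obtain ⟨L, hLlen, hLmem, hLsum⟩ := exists_list c N h z (C * l ^ C) hc1 hzodd hzB
  refine ⟨L, ?_, hLmem, ?_, ?_⟩
  · rw [hLlen]
    refine le_trans hNl (le_trans ?_ hCl)
    exact Nat.mul_le_mul (by norm_num) (Nat.pow_le_pow_right hl (by norm_num))
  · rw [hLsum]
    refine le_trans ?_ hit
    have h1 : 4 * n ≤ C * l ^ C := by
      refine le_trans ?_ hCl
      rw [hn]
      calc 4 * (40 * l) = 160 * l ^ 1 := by ring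
        _ ≤ 10 ^ 24 * l ^ 16 :=
          Nat.mul_le_mul (by norm_num) (Nat.pow_le_pow_right hl (by norm_num))
    have h2 : (4 : ℝ) * n ≤ C * l ^ C := by exact_mod_cast h1
    exact div_le_div_of_nonneg_left ht0.le (by positivity) h2
  · rw [hLsum]
    exact hzt.le

end Pool.Agent.OPH.H5
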